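import Pool.Agent.helper51.HS.Gens

set_option autoImplicit false

/-!
# The number of minimal relations does not decrease under interval completion

Let `Γ` be a numerical semigroup with minimal generators `G`, `m = min G`, `M = max G`, and let
`Gt` be the minimal generating set of the interval completion, the submonoid of `ℕ` generated by
all integers `n` with `m ≤ n ≤ M`. All minimal presentations of `Γ` have the same number `r` of
elements, all minimal presentations of the interval completion have the same number `rt` of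
elements, and `r ≤ rt`. Moreover `r` and `rt` are the numbers of generators of the toric ideals
over every field.
-/

namespace Pool.Agent.Results.MP_5ff942_al.IntervalCompletion

open Pool.Agent.helper51.HS

universe u

/-- For every numerical semigroup `Γ` with interval completion `Γ'`: `ρ(Γ) ≤ ρ(Γ')`, where `ρ` is
the number of elements of every minimal presentation. -/
theorem result (Γ : AddSubmonoid ℕ) (hΓ : ((Γ : Set ℕ)ᶜ).Finite) (G Gt : Finset ℕ) (m M : ℕ)
    (hG : IsMinGens G Γ) (hm : IsLeast (G : Set ℕ) m) (hM : IsGreatest (G : Set ℕ) M)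
    (hGt : IsMinGens Gt (AddSubmonoid.closure (Set.Icc m M))) :
    ∃ r rt : ℕ, r ≤ rt ∧
      (∃ R, IsMinPres G R) ∧ (∀ R, IsMinPres G R → R.Finite ∧ R.ncard = r) ∧
      (∃ R, IsMinPres Gt R) ∧ (∀ R, IsMinPres Gt R → R.Finite ∧ R.ncard = rt) ∧
      ∀ (k : Type u) [Field k], Submodule.spanRank (toric k G) = (r : Cardinal) ∧
        Submodule.spanRank (toric k Gt) = (rt : Cardinal) := by
  have h0 : 0 ∉ G := zero_notMem hG
  have h0t : 0 ∉ Gt := zero_notMem hGt
  obtain ⟨R, hR⟩ := exists_minPres h0
  obtain ⟨Rt, hRt⟩ := exists_minPres h0t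
  have key : ∀ {S : Finset ℕ} (h : 0 ∉ S) {R R' : Set ((S → ℕ) × (S → ℕ))}, IsMinPres S R →
      IsMinPres S R' → R.ncard = R'.ncard := by
    intro S h R R' hR hR'
    have h1 := (minPres_card ℚ h hR).2
    have h2 := (minPres_card ℚ h hR').2
    rw [h1] at h2
    exact_mod_cast h2
  refine ⟨R.ncard, Rt.ncard, ?_, ⟨R, hR⟩, fun R' hR' => ⟨(minPres_card ℚ h0 hR').1, key h0 hR' hR⟩,
    ⟨Rt, hRt⟩, fun R' hR' => ⟨(minPres_card ℚ h0t hR').1, key h0t hR' hRt⟩, fun k _ =>
      ⟨(minPres_card k h0 hR).2, (minPres_card k h0t hRt).2⟩⟩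
  have h1 := spanRank_le hΓ hG hm hM hGt
  rw [(minPres_card ℚ h0 hR).2, (minPres_card ℚ h0t hRt).2] at h1
  exact_mod_cast h1

end Pool.Agent.Results.MP_5ff942_al.IntervalCompletion
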